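import Pool.Agent.H19.KL.Stmts2

set_option autoImplicit false

open MeasureTheory Set
open scoped ContDiff

namespace Pool.Agent.H19.KL

open Pool.Agent.H84 Pool.Agent.H84.Sym Pool.Agent.H84.Sym.P2x Pool.Agent.H84.Sym.C29
open Pool.Agent.H73.Lp

/-- comparison of rational powers -/
private theorem GLB_conv {k1 k2 u m e : ℝ} (hu : 0 < u) (hm : 0 < m)
    (h : k1 * m ^ (-e) ≤ k2 * u ^ (-e)) : k1 * (u / m) ^ e ≤ k2 := by
  have h1 : 0 < u ^ e := Real.rpow_pos_of_pos hu e
  have h2 : 0 < m ^ e := Real.rpow_pos_of_pos hm e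
  rw [Real.rpow_neg hm.le, Real.rpow_neg hu.le] at h
  rw [Real.div_rpow hu.le hm.le]
  have h3 := mul_le_mul_of_nonneg_right h h1.le
  have e1 : k1 * (m ^ e)⁻¹ * u ^ e = k1 * (u ^ e / m ^ e) := by
    rw [div_eq_mul_inv]; ring
  have e2 : k2 * (u ^ e)⁻¹ * u ^ e = k2 := by
    rw [mul_assoc, inv_mul_cancel₀ h1.ne', mul_one]
  rw [e1, e2] at h3
  exact h3

theorem glb_thm : GLBStmt := by
  intro p q φ ε R m s hφ hp hp2 hq2 hε hεm hmR
  have hm : 0 < m := hε.trans_le hεm
  have hR : 0 < R := hm.trans_le hmR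
  set u : ℝ := min (max |s| ε) R with hu_def
  have hu : 0 < u := lt_min (lt_max_of_lt_right hε) hR
  have hgg : gg φ ε R s = deriv (deriv φ) u := rfl
  have hk : (p - 1) * kap φ u ≤ gg φ ε R s := by
    rw [hgg]
    unfold kap
    rw [abs_of_pos hu, ← mul_div_assoc, div_le_iff₀ hu]
    have := hφ.lower u hu
    linarith
  have hkm : 0 < kap φ m := hφ.kap_pos hm.ne'
  set t : ℝ := |s| / m with ht_def
  have ht : 0 ≤ t := div_nonneg (abs_nonneg _) hm.le
  have htq : 0 ≤ t ^ (q - 2) := Real.rpow_nonneg ht _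
  have hp1 : 0 < p - 1 := by linarith
  rcases le_or_gt |s| m with hs | hs
  · have hum : u ≤ m := (min_le_left _ _).trans (max_le hs hεm)
    have hsu : |s| ≤ u := le_min (le_max_left _ _) (hs.trans hmR)
    have h1 := hφ.kap_up hu hum
    have h2 : kap φ m * (u / m) ^ (q - 2) ≤ kap φ u := by
      apply GLB_conv hu hm
      rw [neg_sub]
      exact h1
    have h3 : t ^ (q - 2) ≤ (u / m) ^ (q - 2) :=
      Real.rpow_le_rpow ht (div_le_div_of_nonneg_right hsu hm.le) (by linarith)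
    have h4 : kap φ m * t ^ (q - 2) ≤ kap φ u :=
      (mul_le_mul_of_nonneg_left h3 hkm.le).trans h2
    have h5 : (p - 1) * kap φ m * t ^ (q - 2) ≤ gg φ ε R s := by
      calc (p - 1) * kap φ m * t ^ (q - 2) = (p - 1) * (kap φ m * t ^ (q - 2)) := by ring
        _ ≤ (p - 1) * kap φ u := mul_le_mul_of_nonneg_left h4 hp1.le
        _ ≤ _ := hk
    have h6 : 0 ≤ gg φ ε R s := le_trans (by positivity) h5
    have h7 : 1 ≤ (1 + t) * (1 + t ^ (q - 2)) := by nlinarith [mul_nonneg ht htq]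
    calc _ ≤ gg φ ε R s := h5
      _ = gg φ ε R s * 1 := by ring
      _ ≤ _ := mul_le_mul_of_nonneg_left h7 h6
  · have hmu : m ≤ u := le_min (hs.le.trans (le_max_left _ _)) hmR
    have hus : u ≤ |s| := by
      refine (min_le_left _ _).trans (max_le le_rfl ?_)
      linarith
    have h1 := hφ.kap_low hm hmu
    have h2 : kap φ m * (u / m) ^ (p - 2) ≤ kap φ u := by
      apply GLB_conv hu hm
      rw [neg_sub]
      exact h1
    have ht1 : 1 ≤ t := by rw [ht_def, one_le_div hm]; exact hs.le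
    have h3 : t ^ (p - 2) ≤ (u / m) ^ (p - 2) :=
      Real.rpow_le_rpow_of_nonpos (div_pos hu hm) (div_le_div_of_nonneg_right hus hm.le)
        (by linarith)
    have h4 : kap φ m * t ^ (p - 2) ≤ kap φ u :=
      (mul_le_mul_of_nonneg_left h3 hkm.le).trans h2
    have h5 : (p - 1) * kap φ m * t ^ (p - 2) ≤ gg φ ε R s := by
      calc (p - 1) * kap φ m * t ^ (p - 2) = (p - 1) * (kap φ m * t ^ (p - 2)) := by ring
        _ ≤ (p - 1) * kap φ u := mul_le_mul_of_nonneg_left h4 hp1.le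
        _ ≤ _ := hk
    have h8 : 1 ≤ t ^ (p - 2) * t := by
      have e : t ^ (p - 2) * t = t ^ (p - 1) := by
        have := Real.rpow_add (show 0 < t by linarith) (p - 2) 1
        rw [Real.rpow_one] at this
        rw [← this]
        congr 1; ring
      rw [e]
      exact Real.one_le_rpow ht1 hp1.le
    have hA : 0 ≤ (p - 1) * kap φ m := by positivity
    calc (p - 1) * kap φ m * t ^ (q - 2)
        = ((p - 1) * kap φ m) * (1 * t ^ (q - 2)) := by ring
      _ ≤ ((p - 1) * kap φ m) * ((t ^ (p - 2) * t) * t ^ (q - 2)) :=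
          mul_le_mul_of_nonneg_left (mul_le_mul_of_nonneg_right h8 htq) hA
      _ = ((p - 1) * kap φ m * t ^ (p - 2)) * (t * t ^ (q - 2)) := by ring
      _ ≤ gg φ ε R s * (t * t ^ (q - 2)) := mul_le_mul_of_nonneg_right h5 (mul_nonneg ht htq)
      _ ≤ gg φ ε R s * ((1 + t) * (1 + t ^ (q - 2))) := by
          apply mul_le_mul_of_nonneg_left _ (le_trans (by positivity) h5)
          nlinarith

end Pool.Agent.H19.KL
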