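import Pool.Agent.H19.KL.Stmts2

set_option autoImplicit false

open MeasureTheory Set
open scoped ContDiff

namespace Pool.Agent.H19.KL

open Pool.Agent.H84 Pool.Agent.H84.Sym Pool.Agent.H84.Sym.P2x Pool.Agent.H84.Sym.C29
open Pool.Agent.H73.Lp

private theorem TL2_psi_bd {g : ℝ → ℝ} {M : ℝ} (hM : ∀ s, |g s| ≤ M) (s : ℝ) :
    |psi g s| ≤ M * s ^ 2 := by
  unfold psi
  have hM0 : 0 ≤ M := (abs_nonneg _).trans (hM 0)
  have h := intervalIntegral.norm_integral_le_of_norm_le_const (a := 0) (b := s)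
    (f := fun u => (s - u) * g u) (C := |s| * M) (by
      intro u hu
      rw [Real.norm_eq_abs, abs_mul]
      apply mul_le_mul _ (hM u) (abs_nonneg _) (abs_nonneg _)
      rcases le_total 0 s with h0 | h0
      · rw [uIoc_of_le h0] at hu
        rw [abs_of_nonneg (by linarith [hu.2]), abs_of_nonneg h0]
        linarith [hu.1]
      · rw [uIoc_of_ge h0] at hu
        rw [abs_of_nonpos (by linarith [hu.1]), abs_of_nonpos h0]
        linarith [hu.2])
  rw [Real.norm_eq_abs, sub_zero] at h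
  calc _ ≤ |s| * M * |s| := h
    _ = M * (|s| * |s|) := by ring
    _ = M * s ^ 2 := by rw [abs_mul_abs_self]; ring

private theorem TL2_num (G H t : ℝ) (ht : 0 ≤ t) (hGH : |G - H| ≤ 1 / 2) :
    ((1 + G ^ 2) * (1 + t)) ^ 2 ≤ 4 * (128 * (1 + H ^ 8) + 1 / 8 * (1 + t ^ 4)) := by
  have h1 := abs_le.1 hGH
  have h2 : G ^ 2 ≤ 2 * H ^ 2 + 1 / 2 := by nlinarith [sq_nonneg (G - 2 * H), sq_nonneg (G - H)]
  have h3 : 1 + G ^ 2 ≤ 2 * (1 + H ^ 2) := by linarith
  have h4 : (1 + G ^ 2) ^ 2 ≤ 4 * (1 + H ^ 2) ^ 2 := by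
    have := pow_le_pow_left₀ (by positivity) h3 2
    calc _ ≤ _ := this
      _ = _ := by ring
  have h5 : ((1 + H ^ 2) ^ 2) ^ 2 ≤ 8 * (1 + H ^ 8) := by
    have : (1 + H ^ 2) ^ 2 ≤ 2 * (1 + H ^ 4) := by nlinarith [sq_nonneg (1 - H ^ 2)]
    have h6 := pow_le_pow_left₀ (by positivity) this 2
    have h7 : (2 * (1 + H ^ 4)) ^ 2 ≤ 8 * (1 + H ^ 8) := by nlinarith [sq_nonneg (1 - H ^ 4)]
    linarith
  have h6 : ((1 + t) ^ 2) ^ 2 ≤ 8 * (1 + t ^ 4) := by
    have : (1 + t) ^ 2 ≤ 2 * (1 + t ^ 2) := by nlinarith [sq_nonneg (1 - t)]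
    have h7 := pow_le_pow_left₀ (by positivity) this 2
    have h8 : (2 * (1 + t ^ 2)) ^ 2 ≤ 8 * (1 + t ^ 4) := by nlinarith [sq_nonneg (1 - t ^ 2)]
    linarith
  have h7 : (1 + H ^ 2) ^ 2 * (1 + t) ^ 2 ≤
      16 * ((1 + H ^ 2) ^ 2) ^ 2 + 1 / 64 * ((1 + t) ^ 2) ^ 2 := by
    nlinarith [sq_nonneg (32 * (1 + H ^ 2) ^ 2 - (1 + t) ^ 2)]
  calc ((1 + G ^ 2) * (1 + t)) ^ 2 = (1 + G ^ 2) ^ 2 * (1 + t) ^ 2 := by ring
    _ ≤ (4 * (1 + H ^ 2) ^ 2) * (1 + t) ^ 2 := mul_le_mul_of_nonneg_right h4 (by positivity)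
    _ = 4 * ((1 + H ^ 2) ^ 2 * (1 + t) ^ 2) := by ring
    _ ≤ 4 * (128 * (1 + H ^ 8) + 1 / 8 * (1 + t ^ 4)) := by
        apply mul_le_mul_of_nonneg_left _ (by norm_num)
        linarith

open Filter Topology in
theorem tl2_thm (E : Type) [NormedAddCommGroup E] [InnerProductSpace ℝ E]
    [FiniteDimensional ℝ E] [MeasurableSpace E] [BorelSpace E]
    (h1 : MK4Stmt E) (h2 : MGGStmt E) (h3 : PGCStmt) (h4 : GLBStmt) : TL2Stmt E := by
  classical
  intro ι _ v φ p q hnt hφ hp hp2 hq4 hv hv0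
  have hpq : p ≤ q := by linarith
  obtain ⟨R0, hR0, hCB⟩ := KK_CB hφ hp hpq hv
  have hsym : ∀ x ∈ KK v φ, -x ∈ KK v φ := fun x hx => KK_neg hφ hx
  set d : ℝ := (Module.finrank ℝ E : ℝ) with hd
  have hd1 : 1 ≤ d := by
    have : 0 < Module.finrank ℝ E := Module.finrank_pos
    rw [hd]
    exact_mod_cast this
  have hq0 : 0 < q := by linarith
  have hd0 : 0 < d := by linarith
  have hp1 : 0 < p - 1 := by linarith
  set a : ℝ := d / q with ha_def
  have ha : 0 < a := by positivity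
  set R : ℝ := 1 + ∑ j, ‖v j‖ * R0 with hR_def
  have hR : 1 ≤ R := by
    have : 0 ≤ ∑ j, ‖v j‖ * R0 := Finset.sum_nonneg fun j _ => by positivity
    linarith
  have hR1 : 0 < R := by linarith
  have hsR : ∀ x ∈ KK v φ, ∀ j, |inner ℝ (v j) x| ≤ R := by
    intro x hx j
    have h1 : ‖x‖ ≤ R0 := by
      have := hCB.sub hx
      rwa [mem_closedBall_zero_iff] at this
    calc |inner ℝ (v j) x| ≤ ‖v j‖ * ‖x‖ := abs_real_inner_le_norm _ _
      _ ≤ ‖v j‖ * R0 := mul_le_mul_of_nonneg_left h1 (norm_nonneg _)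
      _ ≤ ∑ j, ‖v j‖ * R0 :=
        Finset.single_le_sum (f := fun j => ‖v j‖ * R0) (fun j _ => by positivity)
          (Finset.mem_univ j)
      _ ≤ R := by linarith
  have hvol : 0 < volume.real (KK v φ) := SMB.vol_pos hCB
  set m : ι → ℝ := fun j => m1 (KK v φ) (v j) with hm_def
  have hm : ∀ j, 0 < m j := fun j => m1_pos hCB (hv0 j)
  have hmR : ∀ j, m j ≤ R := by
    intro j
    change (∫ x in KK v φ, |inner ℝ (v j) x|) / volume.real (KK v φ) ≤ R
    rw [div_le_iff₀ hvol]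
    calc ∫ x in KK v φ, |inner ℝ (v j) x| ≤ ∫ _ in KK v φ, R := by
          apply setIntegral_mono_on (SMB.int_abs hCB (v j)) (integrableOn_const hCB.lt_top.ne)
            hCB.meas (fun x hx => hsR x hx j)
      _ = R * volume.real (KK v φ) := by
          rw [setIntegral_const, smul_eq_mul, mul_comm]
  let e : ℕ → ℝ := fun k => 1 / ((k:ℝ) + 1 + 1)
  have he0 : ∀ k, 0 < e k := fun k => by positivity
  have heR : ∀ k, e k < R := by
    intro k
    have : e k < 1 := by
      rw [div_lt_one (by positivity)]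
      have : (0:ℝ) ≤ k := Nat.cast_nonneg k
      linarith
    linarith
  have hlim : Tendsto e atTop (𝓝 0) := by
    have h1 := (tendsto_add_atTop_iff_nat 1).2 (tendsto_one_div_add_atTop_nhds_zero_nat (𝕜 := ℝ))
    refine h1.congr fun k => ?_
    simp [e]
  let g : ℕ → ι → ℝ → ℝ := fun k j => gg (φ j) (e k) R
  have hgc : ∀ k j, Continuous (g k j) := fun k j => gg_continuous (hφ j) (he0 k) (heR k)
  let P : ℕ → E → ℝ := fun k => Ph v (fun j => psi (g k j))
  have hPs : ∀ k, ContDiff ℝ 2 (P k) := fun k => (Ph_psi (hgc k)).1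
  -- closeness
  let η : ℕ → ℝ := fun k => ∑ j, (q + 1) * R * deriv (φ j) (e k)
  have hη : Tendsto η atTop (𝓝 0) := by
    have h1 : Tendsto η atTop (𝓝 (∑ j : ι, (q + 1) * R * 0)) := by
      apply tendsto_finsetSum
      intro j _
      apply Tendsto.const_mul
      have h2 : Continuous (deriv (φ j)) := (hφ j).c1.continuous_deriv le_rfl
      have h3 := (h2.tendsto 0).comp hlim
      rwa [(hφ j).deriv_zero] at h3
    simpa using h1
  have hclose : ∀ k, ∀ x ∈ KK v φ, |P k x - Ph v φ x| ≤ η k := by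
    intro k x hx
    simp only [P, Ph, η]
    rw [← Finset.sum_sub_distrib]
    refine (Finset.abs_sum_le_sum_abs _ _).trans (Finset.sum_le_sum fun j _ => ?_)
    exact h3 p q (φ j) (e k) R _ (hφ j) hp hpq (he0 k) (heR k) (hsR x hx j)
  let c : ℕ → ι → E → ℝ := fun k j x =>
    a / (2 * (1 + (a * (1 - P k x)) ^ 2)) * g k j (inner ℝ (v j) x)
  have hinner : ∀ j, Continuous (fun x : E => (inner ℝ (v j) x : ℝ)) := fun j =>
    continuous_const.inner continuous_id
  have hcc : ∀ k j, Continuous (c k j) := by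
    intro k j
    have h1 : Continuous (P k) := (hPs k).continuous
    have h2 : Continuous (fun x => (2 * (1 + (a * (1 - P k x)) ^ 2))) := by fun_prop
    exact (continuous_const.div h2 (fun x => by positivity)).mul ((hgc k j).comp (hinner j))
  have hbd : ∀ k j, ∃ m M : ℝ, 0 < m ∧ ∀ s, m ≤ g k j s ∧ g k j s ≤ M := fun k j =>
    gg_bounds (hφ j) hp (he0 k) (heR k)
  have hgpos : ∀ k j s, 0 < g k j s := by
    intro k j s
    obtain ⟨m, M, hm, h⟩ := hbd k j
    exact hm.trans_le (h s).1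
  have hcpos : ∀ k j x, 0 < c k j x := by
    intro k j x
    exact mul_pos (by positivity) (hgpos k j _)
  -- choice of k
  have hev : ∀ᶠ k in atTop, (∀ j, e k < m j) ∧ η k < 1 / (2 * a) := by
    apply Eventually.and
    · rw [eventually_all]
      exact fun j => hlim.eventually_lt_const (hm j)
    · exact hη.eventually_lt_const (by positivity)
  obtain ⟨k, hk1, hk2⟩ := hev.exists
  choose m' M hm' hmM using hbd k
  have hgM : ∀ j s, |g k j s| ≤ M j := by
    intro j s
    rw [abs_of_pos (hgpos k j s)]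
    exact (hmM j s).2
  have hM0 : ∀ j, 0 ≤ M j := fun j => (abs_nonneg _).trans (hgM j 0)
  -- growth of P
  have hPgr : GC (P k) := by
    refine ⟨(hPs k).continuous, ?_⟩
    refine Gr.of_le (G := fun x => (∑ i, M i * ‖v i‖ ^ 2) * (‖x‖ * ‖x‖))
      (Gr.mul (Gr.of_bdd (A := |∑ i, M i * ‖v i‖ ^ 2|) fun _ => le_rfl) (Gr.mul Gr.nrm Gr.nrm)) ?_
    intro x
    have hS0 : 0 ≤ ∑ j, M j * ‖v j‖ ^ 2 :=
      Finset.sum_nonneg fun j _ => mul_nonneg (hM0 j) (by positivity)
    rw [abs_of_nonneg (mul_nonneg hS0 (by positivity))]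
    simp only [P, Ph]
    refine (Finset.abs_sum_le_sum_abs _ _).trans ?_
    rw [Finset.sum_mul]
    apply Finset.sum_le_sum
    intro i _
    refine (TL2_psi_bd (hgM i) _).trans ?_
    rw [mul_assoc]
    apply mul_le_mul_of_nonneg_left _ (hM0 i)
    rw [← sq, ← mul_pow, ← sq_abs]
    exact pow_le_pow_left₀ (abs_nonneg _) (abs_real_inner_le_norm _ _) 2
  let D' : ι → E → ℝ := fun j x =>
    2 * q / (p - 1) * ((1 + (a * (1 - P k x)) ^ 2) * (1 + |inner ℝ (v j) x| / m j))
  have hgcin : ∀ j, GC (fun x : E => (inner ℝ (v j) x : ℝ)) := by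
    intro j
    refine ⟨hinner j, ?_⟩
    refine Gr.of_le (G := fun x => ‖v j‖ * ‖x‖)
      (Gr.mul (Gr.of_bdd (A := |‖v j‖|) fun _ => le_rfl) Gr.nrm) fun x => ?_
    rw [abs_of_nonneg (by positivity : (0:ℝ) ≤ ‖v j‖ * ‖x‖)]
    exact abs_real_inner_le_norm _ _
  have hDgc : ∀ j, GC (D' j) := by
    intro j
    have g1 : GC (fun x => 1 + (a * (1 - P k x)) ^ 2) :=
      (GC.const 1).add (((GC.const a).mul ((GC.const 1).sub hPgr)).sq)
    have g2 : GC (fun x : E => 1 + |inner ℝ (v j) x| / m j) := by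
      have g3 : GC (fun x : E => 1 + (m j)⁻¹ * |inner ℝ (v j) x|) :=
        (GC.const 1).add ((GC.const (m j)⁻¹).mul (hgcin j).abs)
      have : (fun x : E => 1 + |inner ℝ (v j) x| / m j) =
          fun x : E => 1 + (m j)⁻¹ * |inner ℝ (v j) x| := by
        ext x; rw [div_eq_mul_inv, mul_comm]
      rw [this]
      exact g3
    exact (GC.const (2 * q / (p - 1))).mul (g1.mul g2)
  have hqp : 1 ≤ 2 * q / (p - 1) := by
    rw [one_le_div hp1]; linarith
  have ht0 : ∀ j (x : E), 0 ≤ |inner ℝ (v j) x| / m j := fun j x =>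
    div_nonneg (abs_nonneg _) (hm j).le
  refine ⟨tw a (P k), c k, D', tw_contDiff (hPs k) a, fun x => (tw_pos a (P k) x).le, ?_, ?_,
    hcc k, hcpos k, ?_, hDgc, ?_, ?_, ?_⟩
  · intro x hx
    apply tw_le
    have h1 := hclose k x hx
    have h2 : Ph v φ x < 1 := hx
    have h3 : P k x ≤ 1 + 1 / (2 * a) := by
      have := le_abs_self (P k x - Ph v φ x)
      linarith
    have h4 : a * (1 / (2 * a)) = 1 / 2 := by field_simp
    nlinarith
  · refine ⟨2 * a * ∑ j, M j * ‖v j‖ ^ 2, fun x => ?_⟩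
    refine (tw_grad (hPs k) ha x).trans ?_
    rw [mul_assoc (2 * a)]
    apply mul_le_mul_of_nonneg_left _ (by positivity)
    have hS0 : 0 ≤ ∑ j, M j * ‖v j‖ ^ 2 :=
      Finset.sum_nonneg fun j _ => mul_nonneg (hM0 j) (by positivity)
    apply ContinuousLinearMap.opNorm_le_bound _ (mul_nonneg hS0 (by positivity))
    intro w
    have h1 : fderiv ℝ (P k) x w = _ := (Ph_psi (v := v) (hgc k)).2.1 w x
    rw [h1, Real.norm_eq_abs]
    refine (Finset.abs_sum_le_sum_abs _ _).trans ?_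
    rw [mul_assoc (∑ j, M j * ‖v j‖ ^ 2), Finset.sum_mul]
    apply Finset.sum_le_sum
    intro j _
    rw [abs_mul]
    have h2 := psi_deriv_bound (hgc k j) (hgM j) (inner ℝ (v j) x)
    have h3 : |inner ℝ (v j) x| ≤ ‖v j‖ * ‖x‖ := abs_real_inner_le_norm _ _
    have h4 : |inner ℝ (v j) w| ≤ ‖v j‖ * ‖w‖ := abs_real_inner_le_norm _ _
    calc |deriv (psi (g k j)) (inner ℝ (v j) x)| * |inner ℝ (v j) w|
        ≤ (M j * (‖v j‖ * ‖x‖)) * (‖v j‖ * ‖w‖) := by
          apply mul_le_mul _ h4 (abs_nonneg _)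
            (mul_nonneg (hM0 j) (by positivity))
          exact h2.trans (mul_le_mul_of_nonneg_left h3 (hM0 j))
      _ = M j * ‖v j‖ ^ 2 * (‖x‖ * ‖w‖) := by ring
      _ ≤ M j * ‖v j‖ ^ 2 * ((1 + ‖x‖) * ‖w‖) := by
          apply mul_le_mul_of_nonneg_left _ (mul_nonneg (hM0 j) (by positivity))
          exact mul_le_mul_of_nonneg_right (by linarith) (norm_nonneg _)
  · intro x w
    have h1 := (Ph_psi (v := v) (hgc k)).2.2 w x
    have h0 : 0 ≤ D w (D w (P k)) x := by
      have : D w (D w (P k)) x = _ := h1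
      rw [this]
      exact Finset.sum_nonneg fun j _ => mul_nonneg (hgpos k j _).le (sq_nonneg _)
    have h2 := tw_hess (hPs k) ha h0
    refine le_trans (le_of_eq ?_) h2
    have : D w (D w (P k)) x = _ := h1
    rw [this, Finset.mul_sum]
    apply Finset.sum_congr rfl
    intro j _
    simp only [c]
    ring
  · intro j x
    have h5 : 1 ≤ (1 + (a * (1 - P k x)) ^ 2) * (1 + |inner ℝ (v j) x| / m j) := by
      have := ht0 j x
      have h6 := sq_nonneg (a * (1 - P k x))
      nlinarith [mul_nonneg h6 this]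
    calc (1:ℝ) = 1 * 1 := by ring
      _ ≤ _ := mul_le_mul hqp h5 zero_le_one (by linarith)
  · intro j x
    have hX : XF (KK v φ) (v j) ((q - 2) / 2) x ^ 2 = (|inner ℝ (v j) x| / m j) ^ (q - 2) := by
      unfold XF
      rw [← Real.rpow_natCast, ← Real.rpow_mul (ht0 j x)]
      congr 1
      push_cast
      ring
    rw [hX]
    have h5 := h4 p q (φ j) (e k) R (m j) (inner ℝ (v j) x) (hφ j) hp hp2 (by linarith) (he0 k)
      (hk1 j).le (hmR j)
    set t := |inner ℝ (v j) x| / m j with ht_def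
    have hb : bet v φ j = d * kap (φ j) (m j) := rfl
    have e1 : c k j x * (D' j x * (1 + t ^ (q - 2))) =
        d / (p - 1) * (g k j (inner ℝ (v j) x) * ((1 + t) * (1 + t ^ (q - 2)))) := by
      simp only [c, D']
      rw [← ht_def]
      have h6 : (1 + (a * (1 - P k x)) ^ 2) ≠ 0 := by positivity
      rw [ha_def] at h6 ⊢
      have h7 : p - 1 ≠ 0 := hp1.ne'
      have h8 : q ≠ 0 := hq0.ne'
      generalize (1 + (d / q * (1 - P k x)) ^ 2) = Y at h6 ⊢
      generalize t ^ (q - 2) = Z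
      field_simp
      try ring
    rw [e1, hb]
    have h6 := mul_le_mul_of_nonneg_left h5 (show 0 ≤ d / (p - 1) by positivity)
    refine le_trans (le_of_eq ?_) h6
    field_simp
  · intro j
    -- the moment estimate
    have hPc : Continuous (Ph v φ) := Ph_continuous hφ
    have hI8 : IntegrableOn (fun x => (a * (1 - Ph v φ x)) ^ 8) (KK v φ) := by
      refine Integrable.mono' (g := fun _ => a ^ 8) (integrableOn_const hCB.lt_top.ne)
        ((continuous_const.mul (continuous_const.sub hPc)).pow 8).aestronglyMeasurable ?_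
      filter_upwards [ae_restrict_mem hCB.meas] with x hx
      have h1 : 0 ≤ Ph v φ x := Ph_nonneg hφ hp x
      have h2 : Ph v φ x < 1 := hx
      rw [Real.norm_eq_abs, abs_pow, abs_mul, abs_of_pos ha, mul_pow]
      have h3 : |1 - Ph v φ x| ≤ 1 := by
        rw [abs_of_nonneg (by linarith)]
        linarith
      have h4 : |1 - Ph v φ x| ^ 8 ≤ 1 := pow_le_one₀ (abs_nonneg _) h3
      calc a ^ 8 * |1 - Ph v φ x| ^ 8 ≤ a ^ 8 * 1 := mul_le_mul_of_nonneg_left h4 (by positivity)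
        _ = a ^ 8 := mul_one _
    have hI4 : IntegrableOn (fun x => (|inner ℝ (v j) x| / m j) ^ 4) (KK v φ) := by
      refine Integrable.mono' (g := fun _ => (R / m j) ^ 4) (integrableOn_const hCB.lt_top.ne)
        (((hinner j).abs.div_const _).pow 4).aestronglyMeasurable ?_
      filter_upwards [ae_restrict_mem hCB.meas] with x hx
      rw [Real.norm_eq_abs, abs_pow, abs_of_nonneg (ht0 j x)]
      exact pow_le_pow_left₀ (ht0 j x) (div_le_div_of_nonneg_right (hsR x hx j) (hm j).le) 4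
    have hone : IntegrableOn (fun _ : E => (1:ℝ)) (KK v φ) := integrableOn_const hCB.lt_top.ne
    have hG : ∀ x ∈ KK v φ, |a * (1 - P k x) - a * (1 - Ph v φ x)| ≤ 1 / 2 := by
      intro x hx
      have h1 := hclose k x hx
      have e1 : a * (1 - P k x) - a * (1 - Ph v φ x) = -(a * (P k x - Ph v φ x)) := by ring
      rw [e1, abs_neg, abs_mul, abs_of_pos ha]
      have h4 : a * (1 / (2 * a)) = 1 / 2 := by field_simp
      rw [← h4]
      exact mul_le_mul_of_nonneg_left (by linarith) ha.le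
    set Q : ℝ := (q / (p - 1)) ^ 2 with hQ
    have hQ0 : 0 ≤ Q := by positivity
    have hle : ∫ x in KK v φ, D' j x ^ 2 ≤ ∫ x in KK v φ, 16 * Q *
        (128 * (1 + (a * (1 - Ph v φ x)) ^ 8) + 1 / 8 * (1 + (|inner ℝ (v j) x| / m j) ^ 4)) := by
      apply integral_mono_of_nonneg
      · exact Eventually.of_forall fun x => sq_nonneg _
      · exact (((hone.add hI8).const_mul 128).add ((hone.add hI4).const_mul (1 / 8))).const_mul _
      · filter_upwards [ae_restrict_mem hCB.meas] with x hx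
        have h5 := TL2_num _ _ _ (ht0 j x) (hG x hx)
        have e1 : D' j x ^ 2 = 4 * Q *
            ((1 + (a * (1 - P k x)) ^ 2) * (1 + |inner ℝ (v j) x| / m j)) ^ 2 := by
          simp only [D', hQ]
          rw [mul_pow, div_pow, div_pow]
          ring
        rw [e1]
        refine (mul_le_mul_of_nonneg_left h5 (by positivity)).trans (le_of_eq ?_)
        ring
    refine hle.trans ?_
    have s1 : ∫ x in KK v φ, (1 + (a * (1 - Ph v φ x)) ^ 8) =
        volume.real (KK v φ) + ∫ x in KK v φ, (a * (1 - Ph v φ x)) ^ 8 := by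
      rw [integral_add hone hI8, setIntegral_const, smul_eq_mul, mul_one]
    have s2 : ∫ x in KK v φ, (1 + (|inner ℝ (v j) x| / m j) ^ 4) =
        volume.real (KK v φ) + ∫ x in KK v φ, (|inner ℝ (v j) x| / m j) ^ 4 := by
      rw [integral_add hone hI4, setIntegral_const, smul_eq_mul, mul_one]
    have s3 : ∫ x in KK v φ, (128 * (1 + (a * (1 - Ph v φ x)) ^ 8) +
        1 / 8 * (1 + (|inner ℝ (v j) x| / m j) ^ 4)) =
        128 * (∫ x in KK v φ, (1 + (a * (1 - Ph v φ x)) ^ 8)) +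
        1 / 8 * ∫ x in KK v φ, (1 + (|inner ℝ (v j) x| / m j) ^ 4) := by
      have i1 : Integrable (fun x => 128 * (1 + (a * (1 - Ph v φ x)) ^ 8))
          (volume.restrict (KK v φ)) := (hone.add hI8).const_mul 128
      have i2 : Integrable (fun x => 1 / 8 * (1 + (|inner ℝ (v j) x| / m j) ^ 4))
          (volume.restrict (KK v φ)) := (hone.add hI4).const_mul (1 / 8)
      rw [integral_add i1 i2, integral_const_mul, integral_const_mul]
    rw [integral_const_mul, s3, s1, s2]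
    have h5 := h2 ι v φ p q hφ hp hpq hv
    have h6 := h1 (KK v φ) R0 (v j) hCB hsym (hv0 j)
    have h5' : ∫ x in KK v φ, (a * (1 - Ph v φ x)) ^ 8 ≤ 40320 * volume.real (KK v φ) := h5
    have h6' : ∫ x in KK v φ, (|inner ℝ (v j) x| / m j) ^ 4 ≤ 40000000 * volume.real (KK v φ) := h6
    have h7 : 16 * Q * (128 * (volume.real (KK v φ) + ∫ x in KK v φ, (a * (1 - Ph v φ x)) ^ 8) +
        1 / 8 * (volume.real (KK v φ) + ∫ x in KK v φ, (|inner ℝ (v j) x| / m j) ^ 4)) ≤
        16 * Q * (128 * (volume.real (KK v φ) + 40320 * volume.real (KK v φ)) +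
        1 / 8 * (volume.real (KK v φ) + 40000000 * volume.real (KK v φ))) := by
      apply mul_le_mul_of_nonneg_left _ (by positivity)
      linarith
    refine h7.trans ?_
    have h8 : 0 ≤ Q * volume.real (KK v φ) := mul_nonneg hQ0 hvol.le
    nlinarith

end Pool.Agent.H19.KL
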